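import Pool.Agent.Lib.MP_33d9ce_co.Star.P_bc
import Pool.Agent.Lib.MP_33d9ce_co.Star.Transport
import Pool.Agent.Lib.MP_33d9ce_co.Cst.Ifc

/-!
# Spanning hypercubes, constant density: sizes of Hamming balls in the base cube
-/

set_option autoImplicit false

noncomputable section

open Classical Finset

namespace Pool.Agent.Lib.MP_33d9ce_co.Cst

open Slack (Cell)

/-- the vertices of the base cube as strings -/
def eB (κ : ℕ) : Cell κ ≃ (Fin κ → Bool) where
  toFun x := fun i => decide (x i = 1)
  invFun y := fun i => if y i then 1 else 0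
  left_inv x := by
    funext i
    show (if decide (x i = 1) = true then (1 : ZMod 2) else 0) = x i
    generalize x i = a
    revert a
    decide
  right_inv y := by
    funext i
    show decide ((if y i = true then (1 : ZMod 2) else 0) = 1) = y i
    cases y i <;> decide

theorem eB_dist {κ : ℕ} (x y : Cell κ) : hammingDist (eB κ x) (eB κ y) = hammingDist x y := by
  unfold hammingDist
  congr 1
  ext i
  rw [Finset.mem_filter, Finset.mem_filter]
  have h : eB κ x i ≠ eB κ y i ↔ x i ≠ y i := by
    show decide (x i = 1) ≠ decide (y i = 1) ↔ x i ≠ y i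
    generalize x i = a
    generalize y i = b
    revert a b
    decide
  rw [h]

/-- the size of a ball -/
def vol (κ r : ℕ) : ℕ := ∑ i ∈ range (r + 1), κ.choose i

theorem card_ball {κ : ℕ} (r : ℕ) (u : Cell κ) :
    ({c | hammingDist c u ≤ r} : Finset (Cell κ)).card = vol κ r := by
  have h := (Star.p_bc (Fin κ) (eB κ u)).2 r
  rw [Fintype.card_fin] at h
  unfold vol
  rw [← h]
  refine Finset.card_bij (fun c _ => eB κ c) ?_ ?_ ?_
  · intro c hc
    rw [Finset.mem_filter] at hc
    simp only [Star.ball, Finset.mem_filter, Finset.mem_univ, true_and]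
    rw [eB_dist]
    exact hc.2
  · intro a _ b _ hab
    exact (eB κ).injective hab
  · intro y hy
    simp only [Star.ball, Finset.mem_filter, Finset.mem_univ, true_and] at hy
    refine ⟨(eB κ).symm y, ?_, (eB κ).apply_symm_apply y⟩
    rw [Finset.mem_filter]
    refine ⟨Finset.mem_univ _, ?_⟩
    rw [← eB_dist, (eB κ).apply_symm_apply]
    exact hy

theorem vol_succ (κ r : ℕ) (h : κ ≤ 5 * r + 4) : vol κ (r + 1) ≤ 5 * vol κ r := by
  have h1 : vol κ (r + 1) = vol κ r + κ.choose (r + 1) := by
    unfold vol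
    rw [Finset.sum_range_succ _ (r + 1)]
  have h2 : κ.choose r ≤ vol κ r := by
    unfold vol
    rw [Finset.sum_range_succ]
    exact Nat.le_add_left _ _
  have h3 := Nat.choose_succ_right_eq κ r
  have h4 : κ.choose (r + 1) * (r + 1) ≤ (4 * κ.choose r) * (r + 1) := by
    rw [h3]
    calc κ.choose r * (κ - r) ≤ κ.choose r * (4 * (r + 1)) := Nat.mul_le_mul_left _ (by omega)
      _ = _ := by ring
  have h5 : κ.choose (r + 1) ≤ 4 * κ.choose r := Nat.le_of_mul_le_mul_right h4 (Nat.succ_pos r)
  omega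

theorem vol_add (κ r : ℕ) (h : κ ≤ 5 * r + 4) (d : ℕ) : vol κ (r + d) ≤ 5 ^ d * vol κ r := by
  induction d with
  | zero => simp
  | succ d ih =>
    have h1 := vol_succ κ (r + d) (by omega)
    calc vol κ (r + (d + 1)) ≤ 5 * vol κ (r + d) := h1
      _ ≤ 5 * (5 ^ d * vol κ r) := Nat.mul_le_mul_left _ ih
      _ = _ := by ring

theorem vol_pos (κ r : ℕ) : 0 < vol κ r := by
  unfold vol
  rw [Finset.sum_range_succ']
  simp

/-- the inner and the outer ball -/
theorem ratio {κ R D : ℕ} (hR : R = κ / 4) (hD : 50 * D ≤ κ) (hκ : 10000 ≤ κ) (u : Cell κ) :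
    ({c | hammingDist c u ≤ R + D} : Finset (Cell κ)).card ≤
      25 ^ D * ({c | hammingDist c u + D ≤ R} : Finset (Cell κ)).card := by
  obtain ⟨r, hr⟩ : ∃ r, R = r + D := ⟨R - D, by omega⟩
  have h1 : ({c | hammingDist c u + D ≤ R} : Finset (Cell κ)) =
      ({c | hammingDist c u ≤ r} : Finset (Cell κ)) := by
    refine Finset.filter_congr fun c _ => ?_
    omega
  rw [h1, card_ball, card_ball]
  have h2 : R + D = r + (D + D) := by omega
  rw [h2]
  refine (vol_add κ r (by omega) (D + D)).trans (le_of_eq ?_)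
  rw [pow_add, ← mul_pow]
  norm_num

theorem small_ball {κ : ℕ} (z : Cell κ) (V : Finset (Cell κ)) (hV : ∀ v ∈ V, hammingDist z v ≤ κ / 4) :
    (V.card : ℝ) ≤ (337 / 192) ^ κ := by
  refine le_trans ?_ (Star.ball_card κ (eB κ z))
  have h : V.card ≤ ({y | 4 * hammingDist y (eB κ z) ≤ κ} : Finset (Fin κ → Bool)).card := by
    refine Finset.card_le_card_of_injOn (fun c => eB κ c) ?_ ?_
    · intro c hc
      have h1 := hV c (Finset.mem_coe.1 hc)
      refine Finset.mem_coe.2 (Finset.mem_filter.2 ⟨Finset.mem_univ _, ?_⟩)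
      rw [eB_dist, hammingDist_comm]
      omega
    · intro a _ b _ hab
      exact (eB κ).injective hab
  exact_mod_cast h

end Pool.Agent.Lib.MP_33d9ce_co.Cst
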