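import Pool.Agent.Lib.MP_33d9ce_co.Cst.G.Hit
import Pool.Agent.Lib.MP_33d9ce_co.Cst.G.Vol

/-!
# Spanning hypercubes, constant density: the partition of the base cube
-/

set_option autoImplicit false

noncomputable section

open Classical Finset

namespace Pool.Agent.Lib.MP_33d9ce_co.Cst

open Slack (Cell)

/-! ### numbers -/

theorem kap_ge (j : ℕ) (hj : 1 ≤ j) : 5000000 * j ≤ kap (j - 1) := by
  rcases j with _ | _ | j
  · omega
  · show 5000000 * 1 ≤ 10 ^ 7
    norm_num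
  · show 5000000 * (j + 2) ≤ 10 ^ 7 * 2500 ^ j
    have h : j + 2 ≤ 2 * 2500 ^ j := by
      induction j with
      | zero => norm_num
      | succ j ih =>
        have := ih (by omega)
        rw [pow_succ]
        omega
    omega

theorem kap_grow (j d : ℕ) (hj : 1 ≤ j) : kap (j - 1) * 2500 ^ d ≤ 2500 * kap (j - 1 + d) := by
  rcases j with _ | _ | j
  · omega
  · rcases d with _ | d
    · show 10 ^ 7 * 2500 ^ 0 ≤ 2500 * 10 ^ 7
      norm_num
    · have h1 : kap (0 + 1 - 1 + (d + 1)) = 10 ^ 7 * 2500 ^ d := by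
        have : 0 + 1 - 1 + (d + 1) = d + 1 := by omega
        rw [this]
        rfl
      rw [h1]
      show 10 ^ 7 * 2500 ^ (d + 1) ≤ 2500 * (10 ^ 7 * 2500 ^ d)
      rw [pow_succ]
      exact le_of_eq (by ring)
  · have h1 : kap (j + 1 + 1 - 1 + d) = 10 ^ 7 * 2500 ^ (j + d) := by
      have : j + 1 + 1 - 1 + d = (j + d) + 1 := by omega
      rw [this]
      rfl
    rw [h1]
    show 10 ^ 7 * 2500 ^ j * 2500 ^ d ≤ 2500 * (10 ^ 7 * 2500 ^ (j + d))
    rw [pow_add]
    calc 10 ^ 7 * 2500 ^ j * 2500 ^ d = 1 * (10 ^ 7 * (2500 ^ j * 2500 ^ d)) := by ring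
      _ ≤ 2500 * (10 ^ 7 * (2500 ^ j * 2500 ^ d)) := Nat.mul_le_mul_right _ (by norm_num)

theorem expo (j d : ℕ) (hj : 1 ≤ j) :
    Real.exp (-((kap (j - 1 + d) : ℝ) / 25 ^ (2 * d + 1))) ≤
      2 * Real.exp (-((kap (j - 1) : ℝ) / 15625)) * (1 / 2) ^ d := by
  set K : ℝ := (kap (j - 1) : ℝ) with hK
  have hK0 : (5000000 : ℝ) ≤ K := by
    have h1 := kap_ge j hj
    have h2 : (5000000 : ℝ) * j ≤ K := by
      rw [hK]
      exact_mod_cast h1
    have h3 : (1 : ℝ) ≤ j := by exact_mod_cast hj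
    linarith
  have hx : (1 : ℝ) ≤ K / 15625 := by
    rw [le_div_iff₀ (by norm_num)]
    linarith
  rcases d with _ | d
  · have h1 : ((kap (j - 1 + 0) : ℝ)) / 25 ^ (2 * 0 + 1) = K / 25 := by
      rw [hK]
      norm_num
    rw [h1, pow_zero, mul_one]
    have h2 : Real.exp (-(K / 25)) ≤ Real.exp (-(K / 15625)) := by
      apply Real.exp_le_exp.2
      have : K / 15625 ≤ K / 25 := by
        apply div_le_div_of_nonneg_left (by linarith) (by norm_num) (by norm_num)
      linarith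
    have h3 : 0 < Real.exp (-(K / 15625)) := Real.exp_pos _
    linarith
  · have h1 : K * 2500 ^ (d + 1) ≤ 2500 * (kap (j - 1 + (d + 1)) : ℝ) := by
      rw [hK]
      exact_mod_cast kap_grow j (d + 1) hj
    have h2 : (K / 15625) * (d + 1 : ℝ) ≤ (kap (j - 1 + (d + 1)) : ℝ) / 25 ^ (2 * (d + 1) + 1) := by
      rw [le_div_iff₀ (by positivity)]
      have h4 : (25 : ℝ) ^ (2 * (d + 1) + 1) = 15625 * 625 ^ d := by
        rw [show 2 * (d + 1) + 1 = 2 * d + 3 by ring, pow_add, pow_mul]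
        norm_num
        ring
      have h5 : (2500 : ℝ) ^ (d + 1) = 2500 * (625 ^ d * 4 ^ d) := by
        rw [← mul_pow, pow_succ]
        norm_num
        ring
      rw [h5] at h1
      have h6 : K * (625 ^ d * 4 ^ d) ≤ (kap (j - 1 + (d + 1)) : ℝ) := by
        nlinarith
      rw [h4]
      have h7 : ((d : ℝ) + 1) ≤ 4 ^ d := by
        have : d + 1 ≤ 4 ^ d := Nat.succ_le_of_lt (Nat.lt_pow_self (by norm_num))
        exact_mod_cast this
      have h8 : (0 : ℝ) ≤ K * 625 ^ d := by positivity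
      calc K / 15625 * (d + 1 : ℝ) * (15625 * 625 ^ d) = (K * 625 ^ d) * (d + 1) := by ring
        _ ≤ (K * 625 ^ d) * 4 ^ d := mul_le_mul_of_nonneg_left h7 h8
        _ = K * (625 ^ d * 4 ^ d) := by ring
        _ ≤ _ := h6
    have h3 : Real.exp (-((kap (j - 1 + (d + 1)) : ℝ) / 25 ^ (2 * (d + 1) + 1))) ≤
        Real.exp (-(K / 15625)) * Real.exp (-(K / 15625)) ^ d := by
      rw [← Real.exp_nat_mul, ← Real.exp_add]
      apply Real.exp_le_exp.2
      have : -(K / 15625) + (d : ℝ) * -(K / 15625) = -((K / 15625) * (d + 1 : ℝ)) := by ring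
      rw [this]
      linarith
    refine h3.trans ?_
    have h4 : Real.exp (-(K / 15625)) ≤ 1 / 2 := by
      have h5 : Real.exp (-(K / 15625)) ≤ Real.exp (-1) := Real.exp_le_exp.2 (by linarith)
      have h6 : Real.exp (-1) < 1 / 2 := by
        have h7 := Real.add_one_lt_exp (one_ne_zero : (1 : ℝ) ≠ 0)
        rw [Real.exp_neg, ← one_div]
        exact one_div_lt_one_div_of_lt (by norm_num) (by linarith)
      linarith
    have h5 : Real.exp (-(K / 15625)) ^ d ≤ (1 / 2) ^ d := pow_le_pow_left₀ (Real.exp_pos _).le h4 d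
    have h6 : 0 < Real.exp (-(K / 15625)) := Real.exp_pos _
    calc Real.exp (-(K / 15625)) * Real.exp (-(K / 15625)) ^ d
        ≤ Real.exp (-(K / 15625)) * (1 / 2) ^ d := mul_le_mul_of_nonneg_left h5 h6.le
      _ = 2 * Real.exp (-(K / 15625)) * (1 / 2) ^ (d + 1) := by
          rw [pow_succ]
          ring

theorem sum_half (L : ℕ) : ∑ d ∈ range L, (1 / 2 : ℝ) ^ d ≤ 2 := by
  have h := geom_sum_eq (show (1 / 2 : ℝ) ≠ 1 by norm_num) L
  rw [h]
  have h2 : (0 : ℝ) ≤ (1 / 2) ^ L := by positivity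
  rw [div_le_iff_of_neg (by norm_num)]
  linarith

theorem sum_sixteen (L : ℕ) : ∑ j ∈ Finset.Icc 1 L, 4 * (1 / 16 : ℝ) ^ j ≤ 4 / 15 - 4 / 15 * (1 / 16) ^ L := by
  induction L with
  | zero => simp
  | succ L ih =>
    rw [Finset.sum_Icc_succ_top (by omega)]
    have : (1 / 16 : ℝ) ^ (L + 1) = (1 / 16) ^ L * (1 / 16) := pow_succ _ _
    rw [this]
    linarith

/-! ### the random choice -/

/-- the centres which decide a ball of radius `D` around `u` completely -/
abbrev inn {κ : ℕ} (R D : ℕ) (u : Cell κ) : Finset (Cell κ) := {c | hammingDist c u + D ≤ R}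

/-- the centres which may decide points at distance at most `D` from `u` -/
abbrev out {κ : ℕ} (R D : ℕ) (u : Cell κ) : Finset (Cell κ) := {c | hammingDist c u ≤ R + D}

/-- many cells near `u`, in terms of the list of centres -/
def gm {κ : ℕ} (L j : ℕ) (l : List (Cell κ)) (u : Cell κ) : Prop :=
  ∃ d, j - 1 + d < L ∧ hit (inn (κ / 4) (2 * d + 1) u) (out (κ / 4) (2 * d + 1) u) (kap (j - 1 + d)) l

theorem count_one {κ m : ℕ} (hκ : 10000 ≤ κ) (D b : ℕ) (hD : 50 * D ≤ κ) (u : Cell κ) :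
    (({ω : Fin m → Cell κ | hit (inn (κ / 4) D u) (out (κ / 4) D u) b (List.ofFn ω)} :
      Finset (Fin m → Cell κ)).card : ℝ) ≤
      Real.exp (-((b : ℝ) / 25 ^ D)) * (Fintype.card (Cell κ) : ℝ) ^ m := by
  have h0 : (out (κ / 4) D u).Nonempty := by
    refine ⟨u, Finset.mem_filter.2 ⟨Finset.mem_univ _, ?_⟩⟩
    rw [hammingDist_self]
    omega
  have h1 : inn (κ / 4) D u ⊆ out (κ / 4) D u := by
    intro c hc
    rw [Finset.mem_filter] at hc ⊢
    refine ⟨Finset.mem_univ _, ?_⟩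
    omega
  refine (hit_count _ _ h1 h0 m b).trans ?_
  refine mul_le_mul_of_nonneg_right ?_ (by positivity)
  have hO : (0 : ℝ) < (out (κ / 4) D u).card := by exact_mod_cast h0.card_pos
  have h2 : ((out (κ / 4) D u).card : ℝ) ≤ 25 ^ D * (inn (κ / 4) D u).card := by
    exact_mod_cast ratio rfl hD hκ u
  have h3 : (1 : ℝ) / 25 ^ D ≤ ((inn (κ / 4) D u).card : ℝ) / (out (κ / 4) D u).card := by
    rw [div_le_div_iff₀ (by positivity) hO]
    linarith
  have h4 : (1 : ℝ) - ((inn (κ / 4) D u).card : ℝ) / (out (κ / 4) D u).card ≤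
      Real.exp (-(1 / 25 ^ D)) := by
    have h5 := Real.add_one_le_exp (-(1 / 25 ^ D : ℝ))
    linarith
  have h6 : (0 : ℝ) ≤ 1 - ((inn (κ / 4) D u).card : ℝ) / (out (κ / 4) D u).card := by
    rw [sub_nonneg, div_le_one hO]
    exact_mod_cast Finset.card_le_card h1
  refine (pow_le_pow_left₀ h6 h4 b).trans (le_of_eq ?_)
  rw [← Real.exp_nat_mul]
  congr 1
  ring

theorem count_gm {κ m : ℕ} (L j : ℕ) (hκ : 10000 ≤ κ) (hL : 100 * (L + 1) ≤ κ) (hj : 1 ≤ j) (u : Cell κ) :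
    (({ω : Fin m → Cell κ | gm L j (List.ofFn ω) u} : Finset (Fin m → Cell κ)).card : ℝ) ≤
      4 * Real.exp (-((kap (j - 1) : ℝ) / 15625)) * (Fintype.card (Cell κ) : ℝ) ^ m := by
  have h1 : ({ω : Fin m → Cell κ | gm L j (List.ofFn ω) u} : Finset (Fin m → Cell κ)) ⊆
      (range (L - (j - 1))).biUnion fun d => ({ω : Fin m → Cell κ |
        hit (inn (κ / 4) (2 * d + 1) u) (out (κ / 4) (2 * d + 1) u) (kap (j - 1 + d)) (List.ofFn ω)} :
        Finset (Fin m → Cell κ)) := by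
    intro ω hω
    rw [Finset.mem_filter] at hω
    obtain ⟨d, hd, h⟩ := hω.2
    rw [Finset.mem_biUnion]
    exact ⟨d, Finset.mem_range.2 (by omega), Finset.mem_filter.2 ⟨Finset.mem_univ _, h⟩⟩
  have h2 : (({ω : Fin m → Cell κ | gm L j (List.ofFn ω) u} : Finset (Fin m → Cell κ)).card : ℝ) ≤
      ∑ d ∈ range (L - (j - 1)), (({ω : Fin m → Cell κ |
        hit (inn (κ / 4) (2 * d + 1) u) (out (κ / 4) (2 * d + 1) u) (kap (j - 1 + d)) (List.ofFn ω)} :
        Finset (Fin m → Cell κ)).card : ℝ) := by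
    exact_mod_cast (Finset.card_le_card h1).trans Finset.card_biUnion_le
  refine h2.trans ?_
  calc ∑ d ∈ range (L - (j - 1)), (({ω : Fin m → Cell κ |
        hit (inn (κ / 4) (2 * d + 1) u) (out (κ / 4) (2 * d + 1) u) (kap (j - 1 + d)) (List.ofFn ω)} :
        Finset (Fin m → Cell κ)).card : ℝ)
      ≤ ∑ d ∈ range (L - (j - 1)), 2 * Real.exp (-((kap (j - 1) : ℝ) / 15625)) * (1 / 2) ^ d *
          (Fintype.card (Cell κ) : ℝ) ^ m := by
        refine Finset.sum_le_sum fun d hd => ?_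
        rw [Finset.mem_range] at hd
        refine (count_one hκ (2 * d + 1) _ (by omega) u).trans ?_
        exact mul_le_mul_of_nonneg_right (expo j d hj) (by positivity)
    _ = (∑ d ∈ range (L - (j - 1)), (1 / 2 : ℝ) ^ d) *
          (2 * Real.exp (-((kap (j - 1) : ℝ) / 15625)) * (Fintype.card (Cell κ) : ℝ) ^ m) := by
        rw [Finset.sum_mul]
        refine Finset.sum_congr rfl fun d _ => ?_
        ring
    _ ≤ 2 * (2 * Real.exp (-((kap (j - 1) : ℝ) / 15625)) * (Fintype.card (Cell κ) : ℝ) ^ m) :=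
        mul_le_mul_of_nonneg_right (sum_half _) (by positivity)
    _ = _ := by ring

/-- Markov's inequality -/
theorem count_bad {κ m : ℕ} (L j : ℕ) (hκ : 10000 ≤ κ) (hL : 100 * (L + 1) ≤ κ) (hj : 1 ≤ j) :
    (({ω : Fin m → Cell κ | Real.exp (-((kap (j - 1) : ℝ) / 20000)) * 2 ^ κ <
      (({u | gm L j (List.ofFn ω) u} : Finset (Cell κ)).card : ℝ)} : Finset (Fin m → Cell κ)).card : ℝ) ≤
      4 * (1 / 16) ^ j * (Fintype.card (Cell κ) : ℝ) ^ m := by
  set g : ℝ := Real.exp (-((kap (j - 1) : ℝ) / 20000)) with hg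
  have hg0 : 0 < g := Real.exp_pos _
  have hN : (Fintype.card (Cell κ) : ℝ) = 2 ^ κ := by simp
  set Bd : Finset (Fin m → Cell κ) := {ω : Fin m → Cell κ | g * 2 ^ κ <
      (({u | gm L j (List.ofFn ω) u} : Finset (Cell κ)).card : ℝ)} with hBd
  have h1 : (Bd.card : ℝ) * (g * 2 ^ κ) ≤
      ∑ ω : Fin m → Cell κ, (({u | gm L j (List.ofFn ω) u} : Finset (Cell κ)).card : ℝ) := by
    rw [← nsmul_eq_mul, ← Finset.sum_const]
    calc ∑ _ω ∈ Bd, (g * 2 ^ κ) ≤
        ∑ ω ∈ Bd, (({u | gm L j (List.ofFn ω) u} : Finset (Cell κ)).card : ℝ) := by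
          refine Finset.sum_le_sum fun ω hω => ?_
          rw [hBd, Finset.mem_filter] at hω
          exact hω.2.le
      _ ≤ _ := Finset.sum_le_sum_of_subset_of_nonneg (Finset.subset_univ _) fun ω _ _ => by positivity
  have h2 : ∑ ω : Fin m → Cell κ, (({u | gm L j (List.ofFn ω) u} : Finset (Cell κ)).card : ℝ) =
      ∑ u : Cell κ, (({ω : Fin m → Cell κ | gm L j (List.ofFn ω) u} :
        Finset (Fin m → Cell κ)).card : ℝ) := by
    have h3 : ∀ ω : Fin m → Cell κ, (({u | gm L j (List.ofFn ω) u} : Finset (Cell κ)).card : ℝ) =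
        ∑ u : Cell κ, if gm L j (List.ofFn ω) u then (1 : ℝ) else 0 := by
      intro ω
      rw [Finset.sum_boole]
    have h4 : ∀ u : Cell κ, (({ω : Fin m → Cell κ | gm L j (List.ofFn ω) u} :
        Finset (Fin m → Cell κ)).card : ℝ) =
        ∑ ω : Fin m → Cell κ, if gm L j (List.ofFn ω) u then (1 : ℝ) else 0 := by
      intro u
      rw [Finset.sum_boole]
    rw [Finset.sum_congr rfl fun ω _ => h3 ω, Finset.sum_comm]
    exact Finset.sum_congr rfl fun u _ => (h4 u).symm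
  have h3 : (Bd.card : ℝ) * (g * 2 ^ κ) ≤ 2 ^ κ *
      (4 * Real.exp (-((kap (j - 1) : ℝ) / 15625)) * (Fintype.card (Cell κ) : ℝ) ^ m) := by
    refine h1.trans ?_
    rw [h2, ← hN, ← Finset.card_univ, ← nsmul_eq_mul, ← Finset.sum_const]
    refine Finset.sum_le_sum fun u _ => ?_
    exact count_gm L j hκ hL hj u
  have h4 : Real.exp (-((kap (j - 1) : ℝ) / 15625)) ≤ g * (1 / 16) ^ j := by
    have h5 : (1 / 16 : ℝ) ^ j = Real.exp (-(Real.log 16 * j)) := by
      rw [Real.exp_neg, mul_comm, Real.exp_nat_mul, Real.exp_log (by norm_num), ← inv_pow]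
      norm_num
    rw [h5, hg, ← Real.exp_add]
    apply Real.exp_le_exp.2
    have h6 : (5000000 : ℝ) * j ≤ kap (j - 1) := by exact_mod_cast kap_ge j hj
    have h7 : Real.log 16 ≤ 16 - 1 := Real.log_le_sub_one_of_pos (by norm_num)
    have h8 : (0 : ℝ) ≤ j := by positivity
    have h9 : Real.log 16 * j ≤ 15 * j := mul_le_mul_of_nonneg_right (by linarith) h8
    have h10 : (kap (j - 1) : ℝ) / 15625 = (kap (j - 1) : ℝ) / 20000 + (kap (j - 1) : ℝ) * (7 / 500000) := by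
      ring
    rw [h10]
    nlinarith
  have h5 : (Bd.card : ℝ) * (g * 2 ^ κ) ≤ (4 * (1 / 16) ^ j * (Fintype.card (Cell κ) : ℝ) ^ m) * (g * 2 ^ κ) := by
    refine h3.trans ?_
    have h6 : (0 : ℝ) ≤ 2 ^ κ * (4 * (Fintype.card (Cell κ) : ℝ) ^ m) := by positivity
    calc 2 ^ κ * (4 * Real.exp (-((kap (j - 1) : ℝ) / 15625)) * (Fintype.card (Cell κ) : ℝ) ^ m)
        = (2 ^ κ * (4 * (Fintype.card (Cell κ) : ℝ) ^ m)) *
            Real.exp (-((kap (j - 1) : ℝ) / 15625)) := by ring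
      _ ≤ (2 ^ κ * (4 * (Fintype.card (Cell κ) : ℝ) ^ m)) * (g * (1 / 16) ^ j) :=
          mul_le_mul_of_nonneg_left h4 h6
      _ = _ := by ring
  exact le_of_mul_le_mul_right h5 (by positivity)

/-- a long sequence of centres rarely misses a point -/
theorem count_miss {κ m : ℕ} (R : ℕ) :
    (({ω : Fin m → Cell κ | ∃ v, ∀ i, R < hammingDist (ω i) v} : Finset (Fin m → Cell κ)).card : ℝ) ≤
      2 ^ κ * (2 ^ κ - 1) ^ m := by
  have h1 : ({ω : Fin m → Cell κ | ∃ v, ∀ i, R < hammingDist (ω i) v} : Finset (Fin m → Cell κ)) ⊆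
      (univ : Finset (Cell κ)).biUnion fun v => Fintype.piFinset fun _ : Fin m => univ.erase v := by
    intro ω hω
    rw [Finset.mem_filter] at hω
    obtain ⟨v, hv⟩ := hω.2
    rw [Finset.mem_biUnion]
    refine ⟨v, Finset.mem_univ _, ?_⟩
    rw [Fintype.mem_piFinset]
    intro i
    rw [Finset.mem_erase]
    refine ⟨fun h => ?_, Finset.mem_univ _⟩
    have h2 := hv i
    rw [h, hammingDist_self] at h2
    omega
  have hN : Fintype.card (Cell κ) = 2 ^ κ := by simp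
  have h2 : ((univ : Finset (Cell κ)).biUnion fun v => Fintype.piFinset fun _ : Fin m =>
      univ.erase v).card ≤ 2 ^ κ * (2 ^ κ - 1) ^ m := by
    refine Finset.card_biUnion_le.trans ?_
    have h3 : ∀ v : Cell κ, (Fintype.piFinset fun _ : Fin m => (univ : Finset (Cell κ)).erase v).card =
        (2 ^ κ - 1) ^ m := by
      intro v
      rw [Fintype.card_piFinset_const, Finset.card_erase_of_mem (Finset.mem_univ _), Finset.card_univ, hN]
    rw [Finset.sum_congr rfl fun v _ => h3 v, Finset.sum_const, Finset.card_univ, hN, smul_eq_mul]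
  have h3 : (((2 ^ κ * (2 ^ κ - 1) ^ m : ℕ)) : ℝ) = 2 ^ κ * (2 ^ κ - 1) ^ m := by
    rw [Nat.cast_mul, Nat.cast_pow, Nat.cast_pow, Nat.cast_sub Nat.one_le_two_pow]
    norm_num
  rw [← h3]
  exact_mod_cast (Finset.card_le_card h1).trans h2

theorem main_G : S_G := by
  intro κ L hκ hL
  -- length of the sequence
  have hq1 : (1 - 1 / 2 ^ κ : ℝ) < 1 := by
    have : (0 : ℝ) < 1 / 2 ^ κ := by positivity
    linarith
  have hq0 : (0 : ℝ) ≤ 1 - 1 / 2 ^ κ := by
    rw [sub_nonneg, div_le_one (by positivity)]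
    exact one_le_pow₀ (by norm_num)
  obtain ⟨m, hm⟩ := exists_pow_lt_of_lt_one (show (0 : ℝ) < 1 / (4 * 2 ^ κ) by positivity) hq1
  have hN : (Fintype.card (Cell κ) : ℝ) = 2 ^ κ := by simp
  have hmiss : (2 : ℝ) ^ κ * (2 ^ κ - 1) ^ m ≤ 1 / 4 * (2 ^ κ) ^ m := by
    have h1 : ((2 : ℝ) ^ κ - 1) ^ m = (1 - 1 / 2 ^ κ) ^ m * (2 ^ κ) ^ m := by
      rw [← mul_pow]
      congr 1
      field_simp
    rw [h1]
    have h2 : (2 : ℝ) ^ κ * (1 - 1 / 2 ^ κ) ^ m ≤ 1 / 4 := by
      calc (2 : ℝ) ^ κ * (1 - 1 / 2 ^ κ) ^ m ≤ 2 ^ κ * (1 / (4 * 2 ^ κ)) :=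
            mul_le_mul_of_nonneg_left hm.le (by positivity)
        _ = 1 / 4 := by field_simp
    calc (2 : ℝ) ^ κ * ((1 - 1 / 2 ^ κ) ^ m * (2 ^ κ) ^ m)
        = (2 ^ κ * (1 - 1 / 2 ^ κ) ^ m) * (2 ^ κ) ^ m := by ring
      _ ≤ _ := mul_le_mul_of_nonneg_right h2 (by positivity)
  -- a good sequence
  obtain ⟨ω, hω1, hω2⟩ : ∃ ω : Fin m → Cell κ, (¬ ∃ v, ∀ i, κ / 4 < hammingDist (ω i) v) ∧
      ∀ j ∈ Finset.Icc 1 L, ¬ Real.exp (-((kap (j - 1) : ℝ) / 20000)) * 2 ^ κ <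
        (({u | gm L j (List.ofFn ω) u} : Finset (Cell κ)).card : ℝ) := by
    by_contra hcon
    push Not at hcon
    have h1 : (univ : Finset (Fin m → Cell κ)) ⊆
        ({ω : Fin m → Cell κ | ∃ v, ∀ i, κ / 4 < hammingDist (ω i) v} : Finset (Fin m → Cell κ)) ∪
        (Finset.Icc 1 L).biUnion fun j => ({ω : Fin m → Cell κ |
          Real.exp (-((kap (j - 1) : ℝ) / 20000)) * 2 ^ κ <
          (({u | gm L j (List.ofFn ω) u} : Finset (Cell κ)).card : ℝ)} : Finset (Fin m → Cell κ)) := by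
      intro ω _
      rw [Finset.mem_union]
      by_cases h : ∃ v, ∀ i, κ / 4 < hammingDist (ω i) v
      · exact Or.inl (Finset.mem_filter.2 ⟨Finset.mem_univ _, h⟩)
      · push Not at h
        obtain ⟨j, hj, h2⟩ := hcon ω h
        exact Or.inr (Finset.mem_biUnion.2 ⟨j, hj, Finset.mem_filter.2 ⟨Finset.mem_univ _, h2⟩⟩)
    have h2 := (Finset.card_le_card h1).trans ((Finset.card_union_le _ _).trans
      (Nat.add_le_add_left Finset.card_biUnion_le _))
    have h3 : ((univ : Finset (Fin m → Cell κ)).card : ℝ) = (2 ^ κ) ^ m := by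
      rw [Finset.card_univ, Fintype.card_fun, Fintype.card_fin, Nat.cast_pow, hN]
    have h4 : (((univ : Finset (Fin m → Cell κ)).card : ℕ) : ℝ) ≤
        ((({ω : Fin m → Cell κ | ∃ v, ∀ i, κ / 4 < hammingDist (ω i) v} :
          Finset (Fin m → Cell κ)).card : ℕ) : ℝ) +
        ∑ j ∈ Finset.Icc 1 L, ((({ω : Fin m → Cell κ |
          Real.exp (-((kap (j - 1) : ℝ) / 20000)) * 2 ^ κ <
          (({u | gm L j (List.ofFn ω) u} : Finset (Cell κ)).card : ℝ)} :
          Finset (Fin m → Cell κ)).card : ℕ) : ℝ) := by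
      exact_mod_cast h2
    rw [h3] at h4
    have h5 := (count_miss (m := m) (κ := κ) (κ / 4)).trans hmiss
    have h6 : ∑ j ∈ Finset.Icc 1 L, ((({ω : Fin m → Cell κ |
          Real.exp (-((kap (j - 1) : ℝ) / 20000)) * 2 ^ κ <
          (({u | gm L j (List.ofFn ω) u} : Finset (Cell κ)).card : ℝ)} :
          Finset (Fin m → Cell κ)).card : ℕ) : ℝ) ≤
        ∑ j ∈ Finset.Icc 1 L, 4 * (1 / 16) ^ j * (2 ^ κ) ^ m := by
      refine Finset.sum_le_sum fun j hj => ?_
      rw [Finset.mem_Icc] at hj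
      have := count_bad (m := m) L j hκ hL hj.1
      rwa [hN] at this
    rw [← Finset.sum_mul] at h6
    have h7 := sum_sixteen L
    have h8 : (0 : ℝ) ≤ 4 / 15 * (1 / 16) ^ L := by positivity
    have h9 : (0 : ℝ) < (2 ^ κ) ^ m := by positivity
    have h10 : (∑ j ∈ Finset.Icc 1 L, 4 * (1 / 16 : ℝ) ^ j) * (2 ^ κ) ^ m ≤ 4 / 15 * (2 ^ κ) ^ m :=
      mul_le_mul_of_nonneg_right (by linarith) h9.le
    linarith
  -- the partition
  set l : List (Cell κ) := List.ofFn ω with hl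
  have hcov : ∀ v, (fc (κ / 4) l v).isSome := by
    intro v
    apply fc_isSome
    by_contra hcon
    apply hω1
    refine ⟨v, fun i => ?_⟩
    by_contra h
    apply hcon
    refine ⟨ω i, ?_, by omega⟩
    rw [hl, List.mem_ofFn]
    exact ⟨i, rfl⟩
  refine ⟨fun v => (fc (κ / 4) l v).get (hcov v), ?_, ?_⟩
  · intro u
    apply small_ball ((fc (κ / 4) l u).get (hcov u))
    intro v hv
    rw [Finset.mem_filter] at hv
    have h3 : (fc (κ / 4) l v).get (hcov v) = (fc (κ / 4) l u).get (hcov u) := hv.2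
    apply fc_some (l := l)
    rw [← h3, Option.some_get]
  · intro j hj1 hj2
    refine le_trans ?_ (not_lt.1 (hω2 j (Finset.mem_Icc.2 ⟨hj1, hj2⟩)))
    have h1 : ({u | geom (fun v => (fc (κ / 4) l v).get (hcov v)) kap L j u} : Finset (Cell κ)) ⊆
        ({u | gm L j l u} : Finset (Cell κ)) := by
      intro u hu
      rw [Finset.mem_filter] at hu ⊢
      refine ⟨Finset.mem_univ _, ?_⟩
      obtain ⟨i, hi1, hi2, hi3⟩ := hu.2
      refine ⟨i + 1 - j, by omega, ?_⟩
      have h2 : j - 1 + (i + 1 - j) = i := by omega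
      rw [h2]
      refine hit_of_card (κ / 4) (2 * (i + 1 - j) + 1) u
        ({v | hammingDist u v ≤ 2 * (i + 1 - j) + 1} : Finset (Cell κ))
        (fun v hv => (Finset.mem_filter.1 hv).2) l (kap i) (lt_of_lt_of_le hi3 ?_)
      apply Finset.card_le_card
      intro c hc
      unfold nc at hc
      rw [Finset.mem_image] at hc
      obtain ⟨v, hv, rfl⟩ := hc
      unfold cs
      rw [Finset.mem_biUnion]
      refine ⟨v, hv, ?_⟩
      rw [Option.mem_toFinset]
      exact Option.get_mem _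
    exact_mod_cast Finset.card_le_card h1

end Pool.Agent.Lib.MP_33d9ce_co.Cst
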