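import Pool.Agent.Lib.MP_33d9ce_co.Slack.CubeDefs

/-!
# Spanning hypercubes, constant density: first centres, hits before the first decisive centre
-/

set_option autoImplicit false

noncomputable section

open Classical Finset

namespace Pool.Agent.Lib.MP_33d9ce_co.Cst

open Slack (Cell)

/-- the list `l` hits `O` at least `b` times before it meets `I` for the first time -/
def hit {Ω : Type} (I O : Finset Ω) : ℕ → List Ω → Prop
  | 0, _ => True
  | _ + 1, [] => False
  | b + 1, c :: l => if c ∈ O then c ∉ I ∧ hit I O b l else hit I O (b + 1) l

/-- the probability that the first `b` hits of `O` avoid `I` -/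
theorem hit_count {Ω : Type} [Fintype Ω] (I O : Finset Ω) (hIO : I ⊆ O) (hO : O.Nonempty) (m : ℕ) :
    ∀ b : ℕ, (({ω : Fin m → Ω | hit I O b (List.ofFn ω)} : Finset (Fin m → Ω)).card : ℝ) ≤
      (1 - (I.card : ℝ) / O.card) ^ b * (Fintype.card Ω : ℝ) ^ m := by
  have hO' : (0 : ℝ) < O.card := by exact_mod_cast hO.card_pos
  have hle : (I.card : ℝ) ≤ O.card := by exact_mod_cast Finset.card_le_card hIO
  have hq : (0 : ℝ) ≤ 1 - (I.card : ℝ) / O.card := by
    rw [sub_nonneg, div_le_one hO']
    exact hle
  set q : ℝ := 1 - (I.card : ℝ) / O.card with hqd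
  have hqO : q * O.card = O.card - I.card := by
    rw [hqd]
    field_simp
  induction m with
  | zero =>
    intro b
    rcases b with _ | b
    · rw [pow_zero, pow_zero, one_mul]
      have h1 : (({ω : Fin 0 → Ω | hit I O 0 (List.ofFn ω)} : Finset (Fin 0 → Ω)).card) ≤
          Fintype.card (Fin 0 → Ω) := Finset.card_le_univ _
      have h2 : Fintype.card (Fin 0 → Ω) = 1 := by simp
      rw [h2] at h1
      exact_mod_cast h1
    · have h1 : ({ω : Fin 0 → Ω | hit I O (b + 1) (List.ofFn ω)} : Finset (Fin 0 → Ω)) = ∅ := by
        rw [Finset.filter_eq_empty_iff]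
        intro ω _ h
        rw [List.ofFn_zero] at h
        exact h
      rw [h1, Finset.card_empty, Nat.cast_zero]
      positivity
  | succ m ih =>
    intro b
    rcases b with _ | b
    · rw [pow_zero, one_mul]
      have h1 : (({ω : Fin (m + 1) → Ω | hit I O 0 (List.ofFn ω)} : Finset (Fin (m + 1) → Ω)).card) ≤
          Fintype.card (Fin (m + 1) → Ω) := Finset.card_le_univ _
      have h2 : Fintype.card (Fin (m + 1) → Ω) = Fintype.card Ω ^ (m + 1) := by simp
      rw [h2] at h1
      exact_mod_cast h1
    · -- decompose according to the first centre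
      have hdec : (({ω : Fin (m + 1) → Ω | hit I O (b + 1) (List.ofFn ω)} :
          Finset (Fin (m + 1) → Ω)).card : ℝ) = ∑ c : Ω,
          (({ω : Fin m → Ω | hit I O (b + 1) (c :: List.ofFn ω)} : Finset (Fin m → Ω)).card : ℝ) := by
        have h1 : (({ω : Fin (m + 1) → Ω | hit I O (b + 1) (List.ofFn ω)} :
            Finset (Fin (m + 1) → Ω)).card : ℝ) =
            ∑ ω : Fin (m + 1) → Ω, (if hit I O (b + 1) (List.ofFn ω) then (1 : ℝ) else 0) := by
          rw [Finset.sum_boole]
        rw [h1, ← (Fin.consEquiv (fun _ : Fin (m + 1) => Ω)).sum_comp, Fintype.sum_prod_type]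
        refine Finset.sum_congr rfl fun c _ => ?_
        rw [← Finset.sum_boole]
        refine Finset.sum_congr rfl fun ω _ => ?_
        have h2 : List.ofFn ((Fin.consEquiv (fun _ : Fin (m + 1) => Ω)) (c, ω)) =
            c :: List.ofFn ω := by
          simp [Fin.consEquiv, List.ofFn_succ]
        rw [h2]
      rw [hdec]
      have hterm : ∀ c : Ω,
          (({ω : Fin m → Ω | hit I O (b + 1) (c :: List.ofFn ω)} : Finset (Fin m → Ω)).card : ℝ) ≤
          q ^ (b + 1) * (Fintype.card Ω : ℝ) ^ m * (if c ∈ O then 0 else 1) +
          q ^ b * (Fintype.card Ω : ℝ) ^ m * ((if c ∈ O then 1 else 0) - (if c ∈ I then 1 else 0)) := by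
        intro c
        by_cases hcO : c ∈ O
        · by_cases hcI : c ∈ I
          · have h1 : ({ω : Fin m → Ω | hit I O (b + 1) (c :: List.ofFn ω)} :
                Finset (Fin m → Ω)) = ∅ := by
              rw [Finset.filter_eq_empty_iff]
              intro ω _ h
              unfold hit at h
              rw [if_pos hcO] at h
              exact h.1 hcI
            rw [h1, if_pos hcO, if_pos hcO, if_pos hcI]
            simp
          · have h1 : ({ω : Fin m → Ω | hit I O (b + 1) (c :: List.ofFn ω)} :
                Finset (Fin m → Ω)) = ({ω : Fin m → Ω | hit I O b (List.ofFn ω)} :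
                Finset (Fin m → Ω)) := by
              refine Finset.filter_congr fun ω _ => ?_
              conv_lhs => unfold hit
              rw [if_pos hcO]
              exact ⟨fun h => h.2, fun h => ⟨hcI, h⟩⟩
            rw [h1, if_pos hcO, if_pos hcO, if_neg hcI]
            have := ih b
            linarith
        · have hcI : c ∉ I := fun h => hcO (hIO h)
          have h1 : ({ω : Fin m → Ω | hit I O (b + 1) (c :: List.ofFn ω)} :
              Finset (Fin m → Ω)) = ({ω : Fin m → Ω | hit I O (b + 1) (List.ofFn ω)} :
              Finset (Fin m → Ω)) := by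
            refine Finset.filter_congr fun ω _ => ?_
            conv_lhs => unfold hit
            rw [if_neg hcO]
          rw [h1, if_neg hcO, if_neg hcO, if_neg hcI]
          have := ih (b + 1)
          linarith
      refine (Finset.sum_le_sum fun c _ => hterm c).trans (le_of_eq ?_)
      rw [Finset.sum_add_distrib, ← Finset.mul_sum, ← Finset.mul_sum, Finset.sum_sub_distrib]
      have e1 : ∑ c : Ω, (if c ∈ O then (1 : ℝ) else 0) = O.card := by
        rw [Finset.sum_ite_mem, Finset.univ_inter, Finset.sum_const, nsmul_eq_mul, mul_one]
      have e2 : ∑ c : Ω, (if c ∈ I then (1 : ℝ) else 0) = I.card := by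
        rw [Finset.sum_ite_mem, Finset.univ_inter, Finset.sum_const, nsmul_eq_mul, mul_one]
      have e3 : ∑ c : Ω, (if c ∈ O then (0 : ℝ) else 1) = Fintype.card Ω - O.card := by
        have h4 : ∑ c : Ω, ((if c ∈ O then (0 : ℝ) else 1) + (if c ∈ O then (1 : ℝ) else 0)) =
            (Fintype.card Ω : ℝ) := by
          have : ∀ c : Ω, ((if c ∈ O then (0 : ℝ) else 1) + (if c ∈ O then (1 : ℝ) else 0)) = 1 := by
            intro c
            split_ifs <;> norm_num
          rw [Finset.sum_congr rfl fun c _ => this c]
          simp
        rw [Finset.sum_add_distrib, e1] at h4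
        linarith
      rw [e1, e2, e3, ← hqO]
      ring

/-- the first centre of the list at distance at most `R` -/
def fc {κ : ℕ} (R : ℕ) (l : List (Cell κ)) (v : Cell κ) : Option (Cell κ) :=
  l.find? fun c => decide (hammingDist c v ≤ R)

theorem fc_cons {κ : ℕ} (R : ℕ) (c : Cell κ) (l : List (Cell κ)) (v : Cell κ) :
    fc R (c :: l) v = if hammingDist c v ≤ R then some c else fc R l v := by
  unfold fc
  rw [List.find?_cons]
  by_cases h : hammingDist c v ≤ R
  · simp [h]
  · simp [h]

theorem fc_some {κ : ℕ} {R : ℕ} {l : List (Cell κ)} {v c : Cell κ} (h : fc R l v = some c) :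
    hammingDist c v ≤ R := by
  unfold fc at h
  have h1 := List.find?_some h
  exact of_decide_eq_true h1

theorem fc_isSome {κ : ℕ} {R : ℕ} {l : List (Cell κ)} {v : Cell κ}
    (h : ∃ c ∈ l, hammingDist c v ≤ R) : (fc R l v).isSome := by
  unfold fc
  rw [List.find?_isSome]
  obtain ⟨c, hc, hd⟩ := h
  exact ⟨c, hc, decide_eq_true hd⟩

/-- the centres deciding the points of `V` -/
def cs {κ : ℕ} (R : ℕ) (l : List (Cell κ)) (V : Finset (Cell κ)) : Finset (Cell κ) :=
  V.biUnion fun v => (fc R l v).toFinset

/-- if more than `b` centres decide points of `V`, a set contained in the ball of radius `D` around `u`, then the first `b`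
centres at distance `≤ R + D` from `u` have distance `> R - D` -/
theorem hit_of_card {κ : ℕ} (R D : ℕ) (u : Cell κ) (V : Finset (Cell κ)) (hV : ∀ v ∈ V, hammingDist u v ≤ D) :
    ∀ (l : List (Cell κ)) (b : ℕ), b < (cs R l V).card →
      hit ({c | hammingDist c u + D ≤ R} : Finset (Cell κ)) ({c | hammingDist c u ≤ R + D} : Finset (Cell κ))
        b l := by
  intro l
  induction l with
  | nil =>
    intro b hb
    exfalso
    have h1 : cs R ([] : List (Cell κ)) V = ∅ := by
      rw [Finset.eq_empty_iff_forall_notMem]
      intro c hc
      unfold cs at hc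
      rw [Finset.mem_biUnion] at hc
      obtain ⟨v, _, hv⟩ := hc
      simp [fc] at hv
    rw [h1, Finset.card_empty] at hb
    omega
  | cons c l ih =>
    intro b hb
    rcases b with _ | b
    · unfold hit
      trivial
    · unfold hit
      by_cases hcO : c ∈ ({c | hammingDist c u ≤ R + D} : Finset (Cell κ))
      · rw [if_pos hcO]
        constructor
        · intro hcI
          rw [Finset.mem_filter] at hcI
          have h1 : cs R (c :: l) V ⊆ {c} := by
            intro x hx
            unfold cs at hx
            rw [Finset.mem_biUnion] at hx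
            obtain ⟨v, hvV, hv⟩ := hx
            have h2 : hammingDist c v ≤ R := by
              have := hammingDist_triangle c u v
              have := hV v hvV
              omega
            rw [fc_cons, if_pos h2] at hv
            simpa using hv
          have h3 := Finset.card_le_card h1
          rw [Finset.card_singleton] at h3
          omega
        · refine ih b ?_
          have h1 : cs R (c :: l) V ⊆ insert c (cs R l V) := by
            intro x hx
            unfold cs at hx
            rw [Finset.mem_biUnion] at hx
            obtain ⟨v, hvV, hv⟩ := hx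
            rw [fc_cons] at hv
            rw [Finset.mem_insert]
            by_cases h2 : hammingDist c v ≤ R
            · rw [if_pos h2] at hv
              left
              simpa using hv
            · rw [if_neg h2] at hv
              right
              unfold cs
              rw [Finset.mem_biUnion]
              exact ⟨v, hvV, hv⟩
          have h3 := (Finset.card_le_card h1).trans (Finset.card_insert_le _ _)
          omega
      · rw [if_neg hcO]
        refine ih (b + 1) ?_
        have h1 : cs R (c :: l) V = cs R l V := by
          unfold cs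
          refine Finset.biUnion_congr rfl fun v hvV => ?_
          rw [fc_cons, if_neg]
          intro h2
          apply hcO
          rw [Finset.mem_filter]
          refine ⟨Finset.mem_univ _, ?_⟩
          have h3 := hammingDist_triangle c v u
          have h4 := hV v hvV
          rw [hammingDist_comm u v] at h4
          omega
        rwa [h1] at hb

end Pool.Agent.Lib.MP_33d9ce_co.Cst
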